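import Mathlib
import Pool.Agent.H84.TO.TargetsH

/-!
# MP_b4e73a_pr, module AEG: almost every invariant plane is a graph

The set of exceptional matrices is covered by finitely many polynomial images of spaces of lower
dimension, so it has smaller Hausdorff dimension than the space of matrices.
-/

open MeasureTheory Matrix Polynomial Filter Topology Module
open scoped ENNReal NNReal

namespace Pool.Agent.H32.TO

open Pool.Agent.H84.TO

namespace AEG

theorem null_of_dimH {F : Type} [NormedAddCommGroup F] [NormedSpace ℝ F] [FiniteDimensional ℝ F]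
    [MeasurableSpace F] [BorelSpace F] (μ : Measure F) [μ.IsAddHaarMeasure] (s : Set F)
    (h : dimH s < finrank ℝ F) : μ s = 0 := by
  have h1 : μ ≪ Measure.hausdorffMeasure (finrank ℝ F : ℝ) :=
    Measure.absolutelyContinuous_isAddHaarMeasure μ _
  exact measure_zero_of_dimH_lt (d := (finrank ℝ F : ℝ≥0)) (by simpa using h1) (by simpa using h)

theorem null_range {E F : Type} [NormedAddCommGroup E] [NormedSpace ℝ E] [FiniteDimensional ℝ E]
    [NormedAddCommGroup F] [NormedSpace ℝ F] [FiniteDimensional ℝ F]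
    [MeasurableSpace F] [BorelSpace F] (μ : Measure F) [μ.IsAddHaarMeasure] (f : E → F)
    (hf : ContDiff ℝ 1 f) (h : finrank ℝ E < finrank ℝ F) : μ (Set.range f) = 0 :=
  null_of_dimH μ _ (lt_of_le_of_lt hf.dimH_range_le (by exact_mod_cast h))

variable {b κ : Type} [Fintype b] [DecidableEq b] [Fintype κ] [DecidableEq κ]

/-- the first vector -/
def xf (i : b) (p : {j : b // j ≠ i} → ℝ) : Fin 2 ⊕ b → ℝ :=
  Sum.elim (fun _ => 0) (fun j => if h : j ≠ i then p ⟨j, h⟩ else 1)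

/-- remaining indices -/
abbrev S2 (i : b) (k : Fin 2 ⊕ b) : Type := {j : Fin 2 ⊕ b // j ≠ Sum.inr i ∧ j ≠ k}

/-- remaining indices, one vector -/
abbrev S1 (i : b) : Type := {j : Fin 2 ⊕ b // j ≠ Sum.inr i}

/-- the second vector -/
def zf (i : b) (k : Fin 2 ⊕ b) (r : S2 i k → ℝ) : Fin 2 ⊕ b → ℝ :=
  fun j => if h : j ≠ Sum.inr i ∧ j ≠ k then r ⟨j, h⟩ else if j = k then 1 else 0

/-- first dual vector -/
def xi (i : b) (c : Fin 2 ⊕ b) : ℝ := if c = Sum.inr i then 1 else 0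

/-- parameters of the second family -/
abbrev E2 (κ : Type) (i : b) (k : Fin 2 ⊕ b) : Type :=
  ({j : b // j ≠ i} → ℝ) × (S2 i k → ℝ) × (Fin 4 → ℝ) × (Fin 2 ⊕ b → S2 i k → ℝ) ×
    (κ → Fin 2 ⊕ b → ℝ)

/-- parameters of the first family -/
abbrev E1 (κ : Type) (i : b) : Type :=
  ({j : b // j ≠ i} → ℝ) × ℝ × (Fin 2 ⊕ b → S1 i → ℝ) × (κ → Fin 2 ⊕ b → ℝ)

/-- second dual vector -/
def ze (i : b) (k : Fin 2 ⊕ b) (x : Fin 2 ⊕ b → ℝ) (c : Fin 2 ⊕ b) : ℝ :=
  (if c = k then 1 else 0) - x k * xi i c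

/-- second family -/
def f2 (i : b) (k : Fin 2 ⊕ b) (e : E2 κ i k) : (Fin 2 ⊕ b) ⊕ κ → Fin 2 ⊕ b → ℝ :=
  fun row c => Sum.elim
    (fun r => ∑ j : S2 i k, e.2.2.2.1 r j * ((if (j : Fin 2 ⊕ b) = c then 1 else 0)
        - xf i e.1 j * xi i c - zf i k e.2.1 j * ze i k (xf i e.1) c)
      + (e.2.2.1 0 * xf i e.1 r + e.2.2.1 1 * zf i k e.2.1 r) * xi i c
      + (e.2.2.1 2 * xf i e.1 r + e.2.2.1 3 * zf i k e.2.1 r) * ze i k (xf i e.1) c)
    (fun r => e.2.2.2.2 r c) row

/-- first family -/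
def f1 (i : b) (e : E1 κ i) : (Fin 2 ⊕ b) ⊕ κ → Fin 2 ⊕ b → ℝ :=
  fun row c => Sum.elim
    (fun r => ∑ j : S1 i, e.2.2.1 r j * ((if (j : Fin 2 ⊕ b) = c then 1 else 0)
        - xf i e.1 j * xi i c) + e.2.1 * xf i e.1 r * xi i c)
    (fun r => e.2.2.2 r c) row

theorem cd_xf (i : b) (r : Fin 2 ⊕ b) : ContDiff ℝ 1 (fun p : {j : b // j ≠ i} → ℝ => xf i p r) := by
  rcases r with r | r
  · exact contDiff_const
  · change ContDiff ℝ 1 (fun p : {j : b // j ≠ i} → ℝ => if h : r ≠ i then p ⟨r, h⟩ else 1)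
    by_cases h : r ≠ i
    · simp only [dif_pos h]
      exact contDiff_apply ℝ ℝ _
    · simp only [dif_neg h]
      exact contDiff_const

theorem cd_zf (i : b) (k r : Fin 2 ⊕ b) : ContDiff ℝ 1 (fun p : S2 i k → ℝ => zf i k p r) := by
  unfold zf
  by_cases h : r ≠ Sum.inr i ∧ r ≠ k
  · simp only [dif_pos h]
    exact contDiff_apply ℝ ℝ _
  · simp only [dif_neg h]
    exact contDiff_const

theorem cd_f2 (i : b) (k : Fin 2 ⊕ b) : ContDiff ℝ 1 (f2 (κ := κ) i k) := by
  refine contDiff_pi.2 (fun row => contDiff_pi.2 (fun c => ?_))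
  have hx : ∀ r, ContDiff ℝ 1 (fun e : E2 κ i k => xf i e.1 r) := fun r =>
    (cd_xf i r).comp contDiff_fst
  have hz : ∀ r, ContDiff ℝ 1 (fun e : E2 κ i k => zf i k e.2.1 r) := fun r =>
    (cd_zf i k r).comp (contDiff_fst.comp contDiff_snd)
  have ha : ∀ t : Fin 4, ContDiff ℝ 1 (fun e : E2 κ i k => e.2.2.1 t) := fun t => by fun_prop
  have hB : ∀ r j, ContDiff ℝ 1 (fun e : E2 κ i k => e.2.2.2.1 r j) := fun r j => by fun_prop
  have hC : ∀ r j, ContDiff ℝ 1 (fun e : E2 κ i k => e.2.2.2.2 r j) := fun r j => by fun_prop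
  have he : ContDiff ℝ 1 (fun e : E2 κ i k => ze i k (xf i e.1) c) := by
    unfold ze
    exact contDiff_const.sub ((hx k).mul contDiff_const)
  rcases row with r | r
  · change ContDiff ℝ 1 (fun e : E2 κ i k =>
      ∑ j : S2 i k, e.2.2.2.1 r j * ((if (j : Fin 2 ⊕ b) = c then 1 else 0)
        - xf i e.1 j * xi i c - zf i k e.2.1 j * ze i k (xf i e.1) c)
      + (e.2.2.1 0 * xf i e.1 r + e.2.2.1 1 * zf i k e.2.1 r) * xi i c
      + (e.2.2.1 2 * xf i e.1 r + e.2.2.1 3 * zf i k e.2.1 r) * ze i k (xf i e.1) c)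
    refine ContDiff.add (ContDiff.add ?_ ?_) ?_
    · refine ContDiff.sum (fun j _ => (hB r j).mul ?_)
      exact (contDiff_const.sub ((hx j).mul contDiff_const)).sub ((hz j).mul he)
    · exact (((ha 0).mul (hx r)).add ((ha 1).mul (hz r))).mul contDiff_const
    · exact (((ha 2).mul (hx r)).add ((ha 3).mul (hz r))).mul he
  · exact hC r c

theorem cd_f1 (i : b) : ContDiff ℝ 1 (f1 (κ := κ) i) := by
  refine contDiff_pi.2 (fun row => contDiff_pi.2 (fun c => ?_))
  have hx : ∀ r, ContDiff ℝ 1 (fun e : E1 κ i => xf i e.1 r) := fun r =>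
    (cd_xf i r).comp contDiff_fst
  have ha : ContDiff ℝ 1 (fun e : E1 κ i => e.2.1) := by fun_prop
  have hB : ∀ r j, ContDiff ℝ 1 (fun e : E1 κ i => e.2.2.1 r j) := fun r j => by fun_prop
  have hC : ∀ r j, ContDiff ℝ 1 (fun e : E1 κ i => e.2.2.2 r j) := fun r j => by fun_prop
  rcases row with r | r
  · change ContDiff ℝ 1 (fun e : E1 κ i =>
      ∑ j : S1 i, e.2.2.1 r j * ((if (j : Fin 2 ⊕ b) = c then 1 else 0)
        - xf i e.1 j * xi i c) + e.2.1 * xf i e.1 r * xi i c)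
    refine ContDiff.add ?_ ((ha.mul (hx r)).mul contDiff_const)
    refine ContDiff.sum (fun j _ => (hB r j).mul ?_)
    exact contDiff_const.sub ((hx j).mul contDiff_const)
  · exact hC r c

theorem card_S2 (i : b) (k : Fin 2 ⊕ b) (hk : k ≠ Sum.inr i) :
    Fintype.card (S2 i k) = Fintype.card b := by
  have h1 : Fintype.card (S2 i k) = (Finset.univ \ {Sum.inr i, k} : Finset (Fin 2 ⊕ b)).card := by
    apply Fintype.card_of_subtype
    intro x
    simp
  rw [h1, Finset.card_sdiff_of_subset (Finset.subset_univ _), Finset.card_univ, Fintype.card_sum,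
    Fintype.card_fin, Finset.card_pair hk.symm]
  omega

theorem card_S1 (i : b) : Fintype.card (S1 i) = Fintype.card b + 1 := by
  have h1 : Fintype.card (S1 i) = (Finset.univ \ {Sum.inr i} : Finset (Fin 2 ⊕ b)).card := by
    apply Fintype.card_of_subtype
    intro x
    simp
  rw [h1, Finset.card_sdiff_of_subset (Finset.subset_univ _), Finset.card_univ, Fintype.card_sum,
    Fintype.card_fin, Finset.card_singleton]
  omega

theorem card_b (i : b) : Fintype.card {j : b // j ≠ i} + 1 = Fintype.card b := by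
  have h1 : Fintype.card {j : b // j ≠ i} = (Finset.univ \ {i} : Finset b).card := by
    apply Fintype.card_of_subtype
    intro x
    simp
  have h2 : 0 < Fintype.card b := Fintype.card_pos_iff.2 ⟨i⟩
  rw [h1, Finset.card_sdiff_of_subset (Finset.subset_univ _), Finset.card_univ,
    Finset.card_singleton]
  omega

theorem fr2 (m n : Type) [Fintype m] [Fintype n] :
    finrank ℝ (m → n → ℝ) = Fintype.card m * Fintype.card n := by
  rw [finrank_pi_fintype ℝ (M := fun _ : m => n → ℝ)]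
  rw [Finset.sum_congr rfl (fun i _ => finrank_fintype_fun_eq_card ℝ (η := n))]
  rw [Finset.sum_const, Finset.card_univ, smul_eq_mul]

omit [DecidableEq b] [DecidableEq κ] in
theorem fr_F : finrank ℝ ((Fin 2 ⊕ b) ⊕ κ → Fin 2 ⊕ b → ℝ)
    = (2 + Fintype.card b + Fintype.card κ) * (2 + Fintype.card b) := by
  rw [fr2, Fintype.card_sum, Fintype.card_sum, Fintype.card_fin]

theorem fr_E2 (i : b) (k : Fin 2 ⊕ b) (hk : k ≠ Sum.inr i) :
    finrank ℝ (E2 κ i k) < finrank ℝ ((Fin 2 ⊕ b) ⊕ κ → Fin 2 ⊕ b → ℝ) := by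
  rw [fr_F]
  unfold E2
  rw [finrank_prod, finrank_prod, finrank_prod, finrank_prod, finrank_fintype_fun_eq_card,
    finrank_fintype_fun_eq_card, finrank_fintype_fun_eq_card, fr2, fr2, Fintype.card_sum,
    Fintype.card_fin, Fintype.card_fin]
  rw [card_S2 i k hk]
  have := card_b i
  nlinarith

theorem fr_E1 (i : b) :
    finrank ℝ (E1 κ i) < finrank ℝ ((Fin 2 ⊕ b) ⊕ κ → Fin 2 ⊕ b → ℝ) := by
  rw [fr_F]
  unfold E1
  rw [finrank_prod, finrank_prod, finrank_prod, finrank_fintype_fun_eq_card,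
    finrank_self, fr2, fr2, Fintype.card_sum, Fintype.card_fin]
  rw [card_S1 i]
  have := card_b i
  nlinarith

theorem xf_eq (i : b) (x : Fin 2 ⊕ b → ℝ) (h0 : ∀ t : Fin 2, x (Sum.inl t) = 0)
    (h1 : x (Sum.inr i) = 1) : xf i (fun j => x (Sum.inr j.1)) = x := by
  funext r
  rcases r with r | r
  · exact (h0 r).symm
  · change (if h : r ≠ i then x (Sum.inr r) else 1) = _
    split_ifs with h
    · rfl
    · rw [not_not.1 h, h1]

theorem zf_eq (i : b) (k : Fin 2 ⊕ b) (z : Fin 2 ⊕ b → ℝ) (h0 : z (Sum.inr i) = 0)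
    (h1 : z k = 1) : zf i k (fun j => z j.1) = z := by
  funext r
  unfold zf
  split_ifs with h h'
  · rfl
  · rw [h', h1]
  · have h2 : r = Sum.inr i := by
      by_contra h2
      exact h ⟨h2, h'⟩
    rw [h2, h0]

theorem sum_S2 (i : b) (k : Fin 2 ⊕ b) (F : Fin 2 ⊕ b → ℝ) (h1 : F (Sum.inr i) = 0)
    (h2 : F k = 0) : ∑ j : S2 i k, F j = ∑ j, F j := by
  rw [← Finset.sum_subtype (Finset.univ.filter (fun j => j ≠ Sum.inr i ∧ j ≠ k)) (by simp) F]
  refine Finset.sum_filter_of_ne (fun j _ hj => ⟨fun h => hj (by rw [h, h1]), fun h => hj (by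
    rw [h, h2])⟩)

theorem sum_S1 (i : b) (F : Fin 2 ⊕ b → ℝ) (h1 : F (Sum.inr i) = 0) :
    ∑ j : S1 i, F j = ∑ j, F j := by
  rw [← Finset.sum_subtype (Finset.univ.filter (fun j => j ≠ Sum.inr i)) (by simp) F]
  exact Finset.sum_filter_of_ne (fun j _ hj => fun h => hj (by rw [h, h1]))

theorem id1 (i : b) (A : Matrix (Fin 2 ⊕ b) (Fin 2 ⊕ b) ℝ) (x : Fin 2 ⊕ b → ℝ)
    (h1 : x (Sum.inr i) = 1) (α : ℝ) (hx : A *ᵥ x = α • x) (r c : Fin 2 ⊕ b) :
    ∑ j : S1 i, A r j * ((if (j : Fin 2 ⊕ b) = c then 1 else 0) - x j * xi i c)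
      + α * x r * xi i c = A r c := by
  rw [sum_S1 i (fun j => A r j * ((if j = c then 1 else 0) - x j * xi i c))]
  · have h2 : ∑ j, A r j * ((if j = c then 1 else 0) - x j * xi i c)
        = A r c - (A *ᵥ x) r * xi i c := by
      simp only [mul_sub, Finset.sum_sub_distrib, mul_ite, mul_one, mul_zero,
        Finset.sum_ite_eq', Finset.mem_univ, if_true]
      congr 1
      rw [Matrix.mulVec, dotProduct, Finset.sum_mul]
      exact Finset.sum_congr rfl (fun j _ => by ring)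
    rw [h2, hx]
    simp only [Pi.smul_apply, smul_eq_mul]
    ring
  · rw [h1]
    unfold xi
    by_cases hc : c = Sum.inr i
    · rw [if_pos hc.symm, if_pos hc]; ring
    · rw [if_neg (fun h => hc h.symm), if_neg hc]; ring

theorem id2 (i : b) (k : Fin 2 ⊕ b) (A : Matrix (Fin 2 ⊕ b) (Fin 2 ⊕ b) ℝ)
    (x z : Fin 2 ⊕ b → ℝ) (h1 : x (Sum.inr i) = 1) (h2 : z (Sum.inr i) = 0) (h3 : z k = 1)
    (α β γ δ : ℝ) (hx : A *ᵥ x = α • x + β • z) (hz : A *ᵥ z = γ • x + δ • z)
    (r c : Fin 2 ⊕ b) :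
    ∑ j : S2 i k, A r j * ((if (j : Fin 2 ⊕ b) = c then 1 else 0) - x j * xi i c
      - z j * ze i k x c) + (α * x r + β * z r) * xi i c + (γ * x r + δ * z r) * ze i k x c
      = A r c := by
  rw [sum_S2 i k (fun j => A r j * ((if j = c then 1 else 0) - x j * xi i c
      - z j * ze i k x c))]
  · have h4 : ∑ j, A r j * ((if j = c then 1 else 0) - x j * xi i c - z j * ze i k x c)
        = A r c - (A *ᵥ x) r * xi i c - (A *ᵥ z) r * ze i k x c := by
      simp only [mul_sub, Finset.sum_sub_distrib, mul_ite, mul_one, mul_zero,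
        Finset.sum_ite_eq', Finset.mem_univ, if_true]
      congr 1
      · congr 1
        rw [Matrix.mulVec, dotProduct, Finset.sum_mul]
        exact Finset.sum_congr rfl (fun j _ => by ring)
      · rw [Matrix.mulVec, dotProduct, Finset.sum_mul]
        exact Finset.sum_congr rfl (fun j _ => by ring)
    rw [h4, hx, hz]
    simp only [Pi.smul_apply, Pi.add_apply, smul_eq_mul]
    ring
  · rw [h1, h2]
    unfold xi
    by_cases hc : c = Sum.inr i
    · rw [if_pos hc.symm, if_pos hc]; ring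
    · rw [if_neg (fun h => hc h.symm), if_neg hc]; ring
  · rw [h3]
    unfold ze
    by_cases hc : c = k
    · rw [if_pos hc.symm, if_pos hc]; ring
    · rw [if_neg (fun h => hc h.symm), if_neg hc]; ring

theorem quad (A : Matrix (Fin 2 ⊕ b) (Fin 2 ⊕ b) ℝ) (q : ℝ[X]) (hm : q.Monic)
    (hd : q.natDegree = 2) (x : Fin 2 ⊕ b → ℝ) (hx : aeval A q *ᵥ x = 0) :
    A *ᵥ (A *ᵥ x) = (-q.coeff 1) • (A *ᵥ x) + (-q.coeff 0) • x := by
  rw [aeval_eq_sum_range, hd, Finset.sum_range_succ, Finset.sum_range_succ, Finset.sum_range_succ,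
    Finset.sum_range_zero, zero_add, pow_zero, pow_one, pow_two] at hx
  have h2 : q.coeff 2 = 1 := by
    have := hm.coeff_natDegree
    rwa [hd] at this
  rw [h2, one_smul, Matrix.add_mulVec, Matrix.add_mulVec, Matrix.smul_mulVec, Matrix.smul_mulVec,
    Matrix.one_mulVec, ← Matrix.mulVec_mulVec] at hx
  rw [neg_smul, neg_smul, ← sub_eq_zero, ← hx]
  abel

/-- the exceptional set is covered -/
theorem cover (Y : Matrix ((Fin 2 ⊕ b) ⊕ κ) (Fin 2 ⊕ b) ℝ) (q : ℝ[X]) (hm : q.Monic)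
    (hd : q.natDegree = 2) (x0 : Fin 2 ⊕ b → ℝ) (hx0 : aeval (top Y) q *ᵥ x0 = 0)
    (ht : ∀ t : Fin 2, x0 (Sum.inl t) = 0) (hne : x0 ≠ 0) :
    (∃ i : b, Y ∈ Set.range (f1 (κ := κ) i)) ∨
      ∃ (i : b) (k : Fin 2 ⊕ b), k ≠ Sum.inr i ∧ Y ∈ Set.range (f2 (κ := κ) i k) := by
  set A := top Y with hA
  have h1 := quad A q hm hd x0 hx0
  obtain ⟨i, hi⟩ : ∃ i : b, x0 (Sum.inr i) ≠ 0 := by
    by_contra hcon
    push_neg at hcon
    apply hne
    funext r
    rcases r with r | r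
    · exact ht r
    · exact hcon r
  set x : Fin 2 ⊕ b → ℝ := (x0 (Sum.inr i))⁻¹ • x0 with hx
  have hx1 : x (Sum.inr i) = 1 := by
    rw [hx, Pi.smul_apply, smul_eq_mul, inv_mul_cancel₀ hi]
  have hxt : ∀ t : Fin 2, x (Sum.inl t) = 0 := fun t => by
    rw [hx, Pi.smul_apply, ht t, smul_zero]
  set s := -q.coeff 1 with hs
  set t := -q.coeff 0 with htt
  have h2 : A *ᵥ (A *ᵥ x) = s • (A *ᵥ x) + t • x := by
    rw [hx, Matrix.mulVec_smul, Matrix.mulVec_smul, h1, smul_add, smul_comm s, smul_comm t]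
  clear_value x s t
  set y := A *ᵥ x with hy
  clear_value y
  set c0 := y (Sum.inr i) with hc0
  by_cases hyz : y - c0 • x = 0
  · left
    refine ⟨i, ?_⟩
    have h3 : A *ᵥ x = c0 • x := by rw [← hy]; exact sub_eq_zero.1 hyz
    refine ⟨(fun j => x (Sum.inr j.1), c0, fun r j => A r j, fun r c => Y (Sum.inr r) c), ?_⟩
    funext row c
    rcases row with r | r
    · change ∑ j : S1 i, A r j * ((if (j : Fin 2 ⊕ b) = c then 1 else 0)
        - xf i (fun j => x (Sum.inr j.1)) j * xi i c)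
        + c0 * xf i (fun j => x (Sum.inr j.1)) r * xi i c = A r c
      rw [xf_eq i x hxt hx1]
      exact id1 i A x hx1 c0 h3 r c
    · rfl
  · right
    obtain ⟨k, hk⟩ : ∃ k, (y - c0 • x) k ≠ 0 := by
      by_contra hcon
      push_neg at hcon
      exact hyz (funext hcon)
    have hki : k ≠ Sum.inr i := by
      rintro rfl
      apply hk
      rw [Pi.sub_apply, Pi.smul_apply, hx1, smul_eq_mul, mul_one, sub_self]
    refine ⟨i, k, hki, ?_⟩
    set d := (y - c0 • x) k with hd'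
    set z : Fin 2 ⊕ b → ℝ := d⁻¹ • (y - c0 • x) with hz
    have hz1 : z (Sum.inr i) = 0 := by
      rw [hz, Pi.smul_apply, Pi.sub_apply, Pi.smul_apply, hx1, smul_eq_mul, smul_eq_mul, mul_one,
        sub_self, mul_zero]
    have hz2 : z k = 1 := by
      rw [hz, Pi.smul_apply, smul_eq_mul, ← hd', inv_mul_cancel₀ hk]
    have h3 : y = c0 • x + d • z := by
      rw [hz]
      funext r
      simp only [Pi.add_apply, Pi.smul_apply, Pi.sub_apply, smul_eq_mul]
      field_simp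
      ring
    have h4 : A *ᵥ z = (d⁻¹ * ((s - c0) * c0 + t)) • x + (s - c0) • z := by
      have h5 : A *ᵥ z = d⁻¹ • (s • y + t • x - c0 • y) := by
        rw [hz, Matrix.mulVec_smul, Matrix.mulVec_sub, Matrix.mulVec_smul, h2, ← hy]
      rw [h5]
      have h6 : s • y + t • x - c0 • y = (s - c0) • y + t • x := by
        rw [sub_smul]; abel
      rw [h6]
      funext r
      have h7 : y r = c0 * x r + d * z r := by
        have := congrFun h3 r
        simpa only [Pi.add_apply, Pi.smul_apply, smul_eq_mul] using this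
      simp only [Pi.add_apply, Pi.smul_apply, smul_eq_mul]
      rw [h7]
      field_simp
      ring
    refine ⟨(fun j => x (Sum.inr j.1), fun j => z j.1,
      ![c0, d, d⁻¹ * ((s - c0) * c0 + t), s - c0], fun r j => A r j,
      fun r c => Y (Sum.inr r) c), ?_⟩
    funext row c
    rcases row with r | r
    · change ∑ j : S2 i k, A r j * ((if (j : Fin 2 ⊕ b) = c then 1 else 0)
        - xf i (fun j => x (Sum.inr j.1)) j * xi i c
        - zf i k (fun j => z j.1) j * ze i k (xf i (fun j => x (Sum.inr j.1))) c)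
        + (c0 * xf i (fun j => x (Sum.inr j.1)) r + d * zf i k (fun j => z j.1) r) * xi i c
        + (d⁻¹ * ((s - c0) * c0 + t) * xf i (fun j => x (Sum.inr j.1)) r
          + (s - c0) * zf i k (fun j => z j.1) r)
          * ze i k (xf i (fun j => x (Sum.inr j.1))) c = A r c
      rw [xf_eq i x hxt hx1, zf_eq i k z hz1 hz2]
      exact id2 i k A x z hx1 hz1 hz2 _ _ _ _ (by rw [← hy]; exact h3) h4 r c
    · rfl

end AEG

open AEG in
theorem aeg : T_AEG := by
  intro b κ _ _ _ _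
  have h1 : ∀ i : b, ∀ᵐ Y : Matrix ((Fin 2 ⊕ b) ⊕ κ) (Fin 2 ⊕ b) ℝ,
      Y ∉ Set.range (f1 (κ := κ) i) := by
    intro i
    have h := null_range (F := (Fin 2 ⊕ b) ⊕ κ → Fin 2 ⊕ b → ℝ) volume (f1 (κ := κ) i) (cd_f1 i)
      (fr_E1 i)
    exact measure_eq_zero_iff_ae_notMem.1 h
  have h2 : ∀ (i : b) (k : Fin 2 ⊕ b), ∀ᵐ Y : Matrix ((Fin 2 ⊕ b) ⊕ κ) (Fin 2 ⊕ b) ℝ,
      k ≠ Sum.inr i → Y ∉ Set.range (f2 (κ := κ) i k) := by
    intro i k
    by_cases hk : k ≠ Sum.inr i
    · have h := null_range (F := (Fin 2 ⊕ b) ⊕ κ → Fin 2 ⊕ b → ℝ) volume (f2 (κ := κ) i k)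
        (cd_f2 i k) (fr_E2 i k hk)
      have h' : ∀ᵐ Y : Matrix ((Fin 2 ⊕ b) ⊕ κ) (Fin 2 ⊕ b) ℝ,
        Y ∉ Set.range (f2 (κ := κ) i k) := measure_eq_zero_iff_ae_notMem.1 h
      filter_upwards [h'] with Y hY _
      exact hY
    · exact Filter.Eventually.of_forall (fun Y h => absurd h hk)
  have h3 := ae_all_iff.2 h1
  have h4 := ae_all_iff.2 (fun i => ae_all_iff.2 (h2 i))
  filter_upwards [h3, h4] with Y hY1 hY2 q hq x hx ht
  by_contra hne
  rcases cover Y q hq.1 hq.2.1 x hx ht hne with ⟨i, hi⟩ | ⟨i, k, hk, hi⟩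
  · exact hY1 i hi
  · exact hY2 i k hk hi

end Pool.Agent.H32.TO
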