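import Mathlib

/-!
# MP_b4e73a_pr: matrices with separable characteristic polynomial
-/

open Matrix Polynomial

namespace Pool.Agent.H32.TO.SEP

variable {m n : Type} [Fintype m] [DecidableEq m] [Fintype n] [DecidableEq n]

/-- intertwining relations pass to polynomials -/
theorem aeval_inter (M : Matrix m m ℝ) (J : Matrix m n ℝ) (Z : Matrix n n ℝ)
    (h : M * J = J * Z) (p : ℝ[X]) : aeval M p * J = J * aeval Z p := by
  have hp : ∀ k : ℕ, M ^ k * J = J * Z ^ k := by
    intro k
    induction k with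
    | zero => rw [pow_zero, pow_zero, Matrix.one_mul, Matrix.mul_one]
    | succ k ih => rw [pow_succ', Matrix.mul_assoc, ih, ← Matrix.mul_assoc, h, Matrix.mul_assoc,
        ← pow_succ']
  induction p using Polynomial.induction_on' with
  | add p q hp hq => rw [map_add, map_add, Matrix.add_mul, Matrix.mul_add, hp, hq]
  | monomial k c =>
    rw [aeval_monomial, aeval_monomial, Algebra.algebraMap_eq_smul_one,
      Algebra.algebraMap_eq_smul_one, smul_mul_assoc, smul_mul_assoc, one_mul, one_mul,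
      Matrix.smul_mul, Matrix.mul_smul, hp k]

/-- a polynomial killing a matrix with separable characteristic polynomial is a multiple of it -/
theorem sep_dvd (A : Matrix n n ℝ) (hs : A.charpoly.Separable)
    (p : ℝ[X]) (hp : aeval A p = 0) : A.charpoly ∣ p := by
  by_cases h0 : p = 0
  · rw [h0]; exact dvd_zero _
  rw [← Polynomial.map_dvd_map' (algebraMap ℝ ℂ)]
  have hsep : (A.charpoly.map (algebraMap ℝ ℂ)).Separable := hs.map
  refine Splits.dvd_of_roots_le_roots (IsAlgClosed.splits _) hsep.ne_zero ?_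
  rw [Multiset.le_iff_subset (nodup_roots hsep)]
  intro μ hμ
  rw [mem_roots'] at hμ ⊢
  refine ⟨(Polynomial.map_ne_zero h0), ?_⟩
  have h1 : (A.map (algebraMap ℝ ℂ)).charpoly.IsRoot μ := by rw [charpoly_map]; exact hμ.2
  rw [IsRoot, eval_charpoly] at h1
  obtain ⟨v, hv, hv2⟩ := Matrix.exists_mulVec_eq_zero_iff.2 h1
  set B : Matrix n n ℂ := A.map (algebraMap ℝ ℂ) with hB
  have h2 : B *ᵥ v = μ • v := by
    rw [Matrix.sub_mulVec] at hv2
    have h3 := (sub_eq_zero.1 hv2).symm
    rw [h3, Matrix.scalar_apply, Matrix.diagonal_const_mulVec]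
  have h2' : ∀ k : ℕ, B ^ k *ᵥ v = μ ^ k • v := by
    intro k
    induction k with
    | zero => rw [pow_zero, pow_zero, Matrix.one_mulVec, one_smul]
    | succ k ih => rw [pow_succ, ← Matrix.mulVec_mulVec, h2, Matrix.mulVec_smul, ih, smul_smul,
        ← pow_succ']
  have h3 : ∀ r : ℝ[X], aeval B r *ᵥ v = (aeval μ r) • v := by
    intro r
    induction r using Polynomial.induction_on' with
    | add p q hp hq => rw [map_add, map_add, Matrix.add_mulVec, add_smul, hp, hq]
    | monomial k c =>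
      rw [aeval_monomial, aeval_monomial, Algebra.algebraMap_eq_smul_one,
        Algebra.algebraMap_eq_smul_one, smul_mul_assoc, smul_mul_assoc, one_mul, one_mul,
        Matrix.smul_mulVec, h2' k, smul_assoc]
  have h4 : aeval B p = 0 := by
    have h5 : B = (Algebra.ofId ℝ ℂ).mapMatrix A := rfl
    rw [h5, aeval_algHom_apply, hp, map_zero]
  have h5 := h3 p
  rw [h4, Matrix.zero_mulVec] at h5
  have h6 : aeval μ p = 0 := by
    rcases smul_eq_zero.1 h5.symm with h | h
    · exact h
    · exact absurd h hv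
  rw [IsRoot, Polynomial.eval_map_algebraMap]
  exact h6

/-- the kernel of a quadratic divisor has dimension at least two -/
theorem two_le (A : Matrix n n ℝ) (hs : A.charpoly.Separable) (q : ℝ[X]) (hq : q.natDegree = 2)
    (hd : q ∣ A.charpoly) : 2 ≤ Module.finrank ℝ (LinearMap.ker (aeval A q).mulVecLin) := by
  obtain ⟨r, hr⟩ := hd
  have hχ : A.charpoly ≠ 0 := hs.ne_zero
  have hq0 : q ≠ 0 := fun h => hχ (by rw [hr, h, zero_mul])
  have hr0 : r ≠ 0 := fun h => hχ (by rw [hr, h, mul_zero])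
  by_contra hlt
  have hle : Module.finrank ℝ (LinearMap.ker (aeval A q).mulVecLin) ≤ 1 := by omega
  obtain ⟨v, hv⟩ := finrank_le_one_iff.1 hle
  have hcomm : ∀ x : n → ℝ, aeval A q *ᵥ (A *ᵥ x) = A *ᵥ (aeval A q *ᵥ x) := by
    intro x
    rw [Matrix.mulVec_mulVec, Matrix.mulVec_mulVec]
    congr 1
    have h := ((Commute.all (X : ℝ[X]) q).map (aeval A)).symm.eq
    rw [aeval_X] at h
    exact h
  have hAv : A *ᵥ (v : n → ℝ) ∈ LinearMap.ker (aeval A q).mulVecLin := by
    rw [LinearMap.mem_ker, Matrix.mulVecLin_apply, hcomm]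
    have := v.2
    rw [LinearMap.mem_ker, Matrix.mulVecLin_apply] at this
    rw [this, Matrix.mulVec_zero]
  obtain ⟨c, hc⟩ := hv ⟨_, hAv⟩
  have hc' : c • (v : n → ℝ) = A *ᵥ (v : n → ℝ) := congrArg Subtype.val hc
  have hE : ∀ w : n → ℝ, aeval A q *ᵥ w = 0 → A *ᵥ w = c • w := by
    intro w hw
    obtain ⟨d, hd⟩ := hv ⟨w, hw⟩
    have hd' : d • (v : n → ℝ) = w := congrArg Subtype.val hd
    rw [← hd', Matrix.mulVec_smul, ← hc', smul_comm]
  have h1 : aeval A ((X - C c) * r) = 0 := by
    apply Matrix.mulVec_injective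
    funext x
    have h6 : aeval A q *ᵥ (aeval A r *ᵥ x) = 0 := by
      rw [Matrix.mulVec_mulVec, ← map_mul, ← hr, Matrix.aeval_self_charpoly, Matrix.zero_mulVec]
    have h7 := hE _ h6
    rw [map_mul, ← Matrix.mulVec_mulVec, map_sub, aeval_X, aeval_C, Matrix.sub_mulVec, h7,
      Algebra.algebraMap_eq_smul_one, Matrix.smul_mulVec, Matrix.one_mulVec, sub_self,
      Matrix.zero_mulVec]
  have h2 := sep_dvd A hs _ h1
  rw [hr] at h2
  have h3 : q ∣ X - C c := (mul_dvd_mul_iff_right hr0).1 h2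
  have h4 := Polynomial.natDegree_le_of_dvd h3 (X_sub_C_ne_zero c)
  rw [natDegree_X_sub_C, hq] at h4
  omega

end Pool.Agent.H32.TO.SEP
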