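import Mathlib
import Pool.Agent.H84.TO.TargetsH
import Pool.Agent.H32.TO.SEP

/-!
# MP_b4e73a_pr, module FIB: fibres of the shear coordinates are the quadratic divisors
-/

open MeasureTheory Matrix Polynomial Filter Topology
open scoped ENNReal

namespace Pool.Agent.H32.TO

open Pool.Agent.H84.TO

namespace FIB

open SEP

section gen
variable {a b κ : Type} [Fintype a] [DecidableEq a] [Fintype b] [DecidableEq b]
  [Fintype κ] [DecidableEq κ]

theorem uu_neg (X : Matrix b a ℝ) : uu X * uu (-X) = 1 := by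
  unfold uu
  rw [fromBlocks_multiply]
  simp

theorem neg_uu (X : Matrix b a ℝ) : uu (-X) * uu X = 1 := by
  unfold uu
  rw [fromBlocks_multiply]
  simp

theorem uu_mul_fr (X : Matrix b a ℝ) (P : Matrix a a ℝ) (Q : Matrix b a ℝ) :
    uu X * fromRows P Q = fromRows P (X * P + Q) := by
  unfold uu
  rw [fromBlocks_mul_fromRows]
  simp

theorem ext_mul_fr {n : Type} (g : Matrix a a ℝ) (P : Matrix a n ℝ) (Q : Matrix κ n ℝ) :
    ext κ g * fromRows P Q = fromRows (g * P) Q := by
  unfold H84.TO.ext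
  rw [fromBlocks_mul_fromRows]
  simp

theorem ext_ext (g h : Matrix a a ℝ) (W : Matrix (a ⊕ κ) a ℝ) :
    ext κ g * (ext κ h * W) = ext κ (g * h) * W := by
  unfold H84.TO.ext
  rw [← Matrix.mul_assoc, fromBlocks_multiply]
  simp

theorem ext_one (W : Matrix (a ⊕ κ) a ℝ) : ext κ (1 : Matrix a a ℝ) * W = W := by
  unfold H84.TO.ext
  rw [fromBlocks_one, Matrix.one_mul]

theorem top_ext (g h : Matrix a a ℝ) (W : Matrix (a ⊕ κ) a ℝ) :
    top (ext κ g * W * h) = g * top W * h := by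
  have h1 : ext κ g * W * h = fromRows (g * top W * h) (bot W * h) := by
    conv_lhs => rw [← fromRows_toRows W, ext_mul_fr, fromRows_mul]
  rw [h1]
  exact toRows₁_fromRows _ _

/-- the graph matrix -/
def gX (X : Matrix b a ℝ) : Matrix (a ⊕ b) a ℝ := fromRows 1 X

theorem gX_eq (X : Matrix b a ℝ) :
    uu X * fromRows (1 : Matrix a a ℝ) (0 : Matrix b a ℝ) = gX X := by
  rw [uu_mul_fr, Matrix.mul_one, add_zero]; rfl

theorem neg_gX (X : Matrix b a ℝ) :
    uu (-X) * gX X = fromRows (1 : Matrix a a ℝ) (0 : Matrix b a ℝ) := by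
  rw [← gX_eq, ← Matrix.mul_assoc, neg_uu, Matrix.one_mul]

/-- the square part of `kill Y` -/
theorem top_kill (Y : Matrix ((a ⊕ b) ⊕ κ) (a ⊕ b) ℝ) :
    top (kill Y) = fromBlocks (Zof Y) (top Y).toBlocks₁₂ 0 (Aof Y) := by
  unfold kill
  exact toRows₁_fromRows _ _

theorem bot_kill (Y : Matrix ((a ⊕ b) ⊕ κ) (a ⊕ b) ℝ) : bot (kill Y) = bot Y := by
  unfold kill
  exact toRows₂_fromRows _ _

theorem top_Phi (Y : Matrix ((a ⊕ b) ⊕ κ) (a ⊕ b) ℝ) :
    top (Phi Y) = uu (Xof Y) * fromBlocks (Zof Y) (top Y).toBlocks₁₂ 0 (Aof Y) * uu (-Xof Y) := by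
  unfold Phi
  rw [top_ext, top_kill]

/-- the graph is invariant -/
theorem inter (Y : Matrix ((a ⊕ b) ⊕ κ) (a ⊕ b) ℝ) :
    top (Phi Y) * gX (Xof Y) = gX (Xof Y) * Zof Y := by
  rw [top_Phi, Matrix.mul_assoc, neg_gX, Matrix.mul_assoc, fromBlocks_mul_fromRows]
  simp only [Matrix.mul_one, Matrix.mul_zero, add_zero]
  rw [uu_mul_fr, add_zero]
  unfold gX
  rw [fromRows_mul, Matrix.one_mul]

/-- the characteristic polynomial factors -/
theorem charpoly_Phi (Y : Matrix ((a ⊕ b) ⊕ κ) (a ⊕ b) ℝ) :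
    (top (Phi Y)).charpoly = (Zof Y).charpoly * (Aof Y).charpoly := by
  rw [top_Phi, Matrix.charpoly_mul_comm, ← Matrix.mul_assoc, neg_uu, Matrix.one_mul,
    charpoly_fromBlocks_zero₂₁]

/-- recover the killed matrix -/
theorem kill_eq (Y : Matrix ((a ⊕ b) ⊕ κ) (a ⊕ b) ℝ) :
    kill Y = ext κ (uu (-Xof Y)) * Phi Y * uu (Xof Y) := by
  unfold Phi
  rw [Matrix.mul_assoc, Matrix.mul_assoc, neg_uu, Matrix.mul_one, ext_ext, neg_uu, ext_one]

theorem eq_of (Y Y' : Matrix ((a ⊕ b) ⊕ κ) (a ⊕ b) ℝ) (hX : Xof Y = Xof Y')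
    (hk : kill Y = kill Y') : Y = Y' := by
  have h1 : top (kill Y) = top (kill Y') := by rw [hk]
  have h2 : bot (kill Y) = bot (kill Y') := by rw [hk]
  rw [bot_kill, bot_kill] at h2
  rw [top_kill, top_kill, fromBlocks_inj] at h1
  rw [← fromRows_toRows Y, ← fromRows_toRows Y']
  congr 1
  change top Y = top Y'
  rw [← fromBlocks_toBlocks (top Y), ← fromBlocks_toBlocks (top Y'), fromBlocks_inj]
  exact ⟨h1.1, h1.2.1, hX, h1.2.2.2⟩

/-- coprime characteristic polynomials give an invertible intertwiner -/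
theorem ric_ne (A : Matrix b b ℝ) (Z : Matrix a a ℝ) (h : IsCoprime Z.charpoly A.charpoly) :
    LinearMap.det (ric A Z) ≠ 0 := by
  intro h0
  have h1 := LinearMap.bot_lt_ker_of_det_eq_zero h0
  obtain ⟨H, hH, hne⟩ := (Submodule.ne_bot_iff _).1 h1.ne'
  apply hne
  rw [LinearMap.mem_ker] at hH
  have h2 : A * H = H * Z := by
    have h3 : H * Z - A * H = 0 := hH
    exact (sub_eq_zero.1 h3).symm
  obtain ⟨u, v, huv⟩ := h
  have h4 := aeval_inter A H Z h2 Z.charpoly
  rw [Matrix.aeval_self_charpoly, Matrix.mul_zero] at h4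
  have h5 : aeval A (u * Z.charpoly + v * A.charpoly) = 1 := by rw [huv, map_one]
  rw [map_add, map_mul, map_mul, Matrix.aeval_self_charpoly, mul_zero, add_zero] at h5
  calc H = 1 * H := (Matrix.one_mul _).symm
    _ = aeval A u * aeval A Z.charpoly * H := by rw [h5]
    _ = 0 := by rw [Matrix.mul_assoc, h4, Matrix.mul_zero]

end gen

variable {b κ : Type} [Fintype b] [DecidableEq b] [Fintype κ] [DecidableEq κ]

/-- the first two coordinates -/
def prj : (Fin 2 ⊕ b → ℝ) →ₗ[ℝ] (Fin 2 → ℝ) where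
  toFun x i := x (Sum.inl i)
  map_add' x y := rfl
  map_smul' c x := rfl

/-- a matrix with separable characteristic polynomial whose quadratic invariant planes are graphs -/
theorem exists_X (A : Matrix (Fin 2 ⊕ b) (Fin 2 ⊕ b) ℝ) (hs : A.charpoly.Separable) (q : ℝ[X])
    (hq : q ∈ QD A.charpoly) (hg : ∀ x : Fin 2 ⊕ b → ℝ, (aeval A q) *ᵥ x = 0 →
      (∀ i : Fin 2, x (Sum.inl i) = 0) → x = 0) :
    ∃ (X : Matrix b (Fin 2) ℝ) (Z : Matrix (Fin 2) (Fin 2) ℝ), A * gX X = gX X * Z ∧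
      aeval A q * gX X = 0 := by
  obtain ⟨h1, h2, h3⟩ := hq
  let E := LinearMap.ker (aeval A q).mulVecLin
  have h4 : 2 ≤ Module.finrank ℝ E := two_le A hs q h2 h3
  have hmE : ∀ x : E, aeval A q *ᵥ (x : Fin 2 ⊕ b → ℝ) = 0 := fun x => x.2
  have hinj : Function.Injective (prj.comp E.subtype) := by
    rw [← LinearMap.ker_eq_bot, LinearMap.ker_eq_bot']
    intro x hx
    have h5 : (x : Fin 2 ⊕ b → ℝ) = 0 := by
      refine hg _ ?_ (fun i => ?_)
      · exact hmE x
      · exact congrFun hx i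
    exact Subtype.ext h5
  have hle := LinearMap.finrank_le_finrank_of_injective hinj
  have h22 : Module.finrank ℝ (Fin 2 → ℝ) = 2 := by simp
  rw [h22] at hle
  have heq : Module.finrank ℝ E = Module.finrank ℝ (Fin 2 → ℝ) := by rw [h22]; omega
  have hsur : Function.Surjective (prj.comp E.subtype) :=
    (LinearMap.injective_iff_surjective_of_finrank_eq_finrank heq).1 hinj
  choose g hgg using hsur
  -- columns
  let X : Matrix b (Fin 2) ℝ := fun j i => (g (Pi.single i 1) : Fin 2 ⊕ b → ℝ) (Sum.inr j)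
  have hcol : ∀ i : Fin 2, (fun r => gX X r i) = (g (Pi.single i 1) : Fin 2 ⊕ b → ℝ) := by
    intro i
    funext r
    rcases r with r | r
    · have := congrFun (hgg (Pi.single i 1)) r
      change (g (Pi.single i 1) : Fin 2 ⊕ b → ℝ) (Sum.inl r) = _ at this
      rw [this]
      unfold gX
      rw [fromRows_apply_inl, Matrix.one_apply, Pi.single_apply]
    · rfl
  have hk : aeval A q * gX X = 0 := by
    ext r i
    have h5 := hmE (g (Pi.single i 1))
    rw [← hcol i] at h5
    exact congrFun h5 r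
  refine ⟨X, (A * gX X).toRows₁, ?_, hk⟩
  -- invariance
  have h6 : aeval A q * (A * gX X - gX X * (A * gX X).toRows₁) = 0 := by
    have h := ((Commute.all (Polynomial.X : ℝ[X]) q).map (aeval A)).symm.eq
    rw [aeval_X] at h
    rw [Matrix.mul_sub, ← Matrix.mul_assoc, h, Matrix.mul_assoc, hk, ← Matrix.mul_assoc, hk]
    simp
  have h7 : A * gX X - gX X * (A * gX X).toRows₁ = 0 := by
    ext r i
    have h8 := hg (fun r => (A * gX X - gX X * (A * gX X).toRows₁) r i) (by
      funext r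
      exact congrFun (congrFun h6 r) i) (fun r => by
      simp only [Matrix.sub_apply]
      have h9 : (gX X * (A * gX X).toRows₁) (Sum.inl r) i = (A * gX X).toRows₁ r i := by
        unfold gX
        rw [fromRows_mul, fromRows_apply_inl, Matrix.one_mul]
      rw [h9, toRows₁_apply, sub_self])
    exact congrFun h8 r
  exact sub_eq_zero.1 h7

end FIB

open FIB SEP in
theorem fib : T_FIB := by
  intro b κ _ _ _ _ Y0 hs hg G
  set A := top Y0 with hA
  -- the map
  have hchi : ∀ Y : Matrix ((Fin 2 ⊕ b) ⊕ κ) (Fin 2 ⊕ b) ℝ, Phi Y = Y0 →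
      A.charpoly = (Zof Y).charpoly * (Aof Y).charpoly := by
    intro Y hY
    rw [hA, ← hY, charpoly_Phi]
  have hmem : ∀ Y : Matrix ((Fin 2 ⊕ b) ⊕ κ) (Fin 2 ⊕ b) ℝ, Phi Y = Y0 →
      (Zof Y).charpoly ∈ QD A.charpoly := by
    intro Y hY
    refine ⟨Matrix.charpoly_monic _, ?_, ⟨_, hchi Y hY⟩⟩
    rw [Matrix.charpoly_natDegree_eq_dim, Fintype.card_fin]
  let f : {Y : Matrix ((Fin 2 ⊕ b) ⊕ κ) (Fin 2 ⊕ b) ℝ //
        Phi Y = Y0 ∧ LinearMap.det (ric (Aof Y) (Zof Y)) ≠ 0} → QD A.charpoly :=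
    fun Y => ⟨(Zof Y.1).charpoly, hmem Y.1 Y.2.1⟩
  have hf : Function.Bijective f := by
    constructor
    · intro Y Y' h
      have h1 : (Zof Y.1).charpoly = (Zof Y'.1).charpoly := congrArg Subtype.val h
      have hk : ∀ Y : Matrix ((Fin 2 ⊕ b) ⊕ κ) (Fin 2 ⊕ b) ℝ, Phi Y = Y0 →
          aeval A (Zof Y).charpoly * gX (Xof Y) = 0 := by
        intro Y hY
        have h2 : A * gX (Xof Y) = gX (Xof Y) * Zof Y := by
          rw [hA, ← hY]; exact inter Y
        rw [aeval_inter _ _ _ h2, Matrix.aeval_self_charpoly, Matrix.mul_zero]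
      have h2 := hk Y.1 Y.2.1
      have h3 := hk Y'.1 Y'.2.1
      rw [← h1] at h3
      have h4 : gX (Xof Y.1) - gX (Xof Y'.1) = 0 := by
        ext r i
        have h5 := hg _ (hmem Y.1 Y.2.1)
          (fun r => (gX (Xof Y.1) - gX (Xof Y'.1)) r i) (by
            have h6 : aeval A (Zof Y.1).charpoly * (gX (Xof Y.1) - gX (Xof Y'.1)) = 0 := by
              rw [Matrix.mul_sub, h2, h3, sub_self]
            funext r
            exact congrFun (congrFun h6 r) i) (fun r => by
            simp only [Matrix.sub_apply]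
            unfold gX
            rw [fromRows_apply_inl, fromRows_apply_inl, sub_self])
        exact congrFun h5 r
      have h5 : Xof Y.1 = Xof Y'.1 := (fromRows_inj (sub_eq_zero.1 h4)).2
      apply Subtype.ext
      refine eq_of _ _ h5 ?_
      rw [kill_eq, kill_eq, Y.2.1, Y'.2.1, h5]
    · rintro ⟨q, hq⟩
      obtain ⟨X, Z, hX1, hX2⟩ := exists_X A hs q hq (hg q hq)
      -- the matrix
      set N0 : Matrix ((Fin 2 ⊕ b) ⊕ κ) (Fin 2 ⊕ b) ℝ := ext κ (uu (-X)) * Y0 * uu X with hN0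
      have hN1 : top N0 = uu (-X) * A * uu X := top_ext _ _ _
      have hN2 : top N0 * fromRows (1 : Matrix (Fin 2) (Fin 2) ℝ) (0 : Matrix b (Fin 2) ℝ)
          = fromRows Z (0 : Matrix b (Fin 2) ℝ) := by
        rw [hN1, Matrix.mul_assoc, gX_eq, Matrix.mul_assoc, hX1, ← Matrix.mul_assoc, neg_gX,
          fromRows_mul, Matrix.one_mul, Matrix.zero_mul]
      have hN3 : (top N0).toBlocks₁₁ = Z ∧ (top N0).toBlocks₂₁ = 0 := by
        rw [← fromBlocks_toBlocks (top N0), fromBlocks_mul_fromRows] at hN2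
        simp only [Matrix.mul_one, Matrix.mul_zero, add_zero] at hN2
        exact ⟨(fromRows_inj hN2).1, (fromRows_inj hN2).2⟩
      let Y : Matrix ((Fin 2 ⊕ b) ⊕ κ) (Fin 2 ⊕ b) ℝ :=
        fromRows (fromBlocks Z (top N0).toBlocks₁₂ X (top N0).toBlocks₂₂) (bot N0)
      have hYt : top Y = fromBlocks Z (top N0).toBlocks₁₂ X (top N0).toBlocks₂₂ :=
        toRows₁_fromRows _ _
      have hYb : bot Y = bot N0 := toRows₂_fromRows _ _
      have hXY : Xof Y = X := by
        unfold Xof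
        rw [hYt, toBlocks_fromBlocks₂₁]
      have hZY : Zof Y = Z := by
        unfold Zof
        rw [hYt, toBlocks_fromBlocks₁₁]
      have hAY : Aof Y = (top N0).toBlocks₂₂ := by
        unfold Aof
        rw [hYt, toBlocks_fromBlocks₂₂]
      have hkY : kill Y = N0 := by
        unfold kill
        rw [hZY, hAY, hYb, hYt, toBlocks_fromBlocks₁₂]
        conv_rhs => rw [← fromRows_toRows N0]
        congr 1
        change _ = top N0
        conv_rhs => rw [← fromBlocks_toBlocks (top N0), hN3.1, hN3.2]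
      have hPhi : Phi Y = Y0 := by
        unfold Phi
        rw [hkY, hXY, hN0, Matrix.mul_assoc, Matrix.mul_assoc, uu_neg, Matrix.mul_one, ext_ext,
          uu_neg, ext_one]
      have hc := hchi Y hPhi
      have hcop : IsCoprime (Zof Y).charpoly (Aof Y).charpoly := by
        rw [hc] at hs
        exact hs.isCoprime
      have hqZ : aeval Z q = 0 := by
        have h1 := aeval_inter A (gX X) Z hX1 q
        rw [hX2] at h1
        unfold gX at h1
        rw [fromRows_mul, ← fromRows_zero] at h1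
        have h2 := (fromRows_inj h1).1
        rw [Matrix.one_mul] at h2
        exact h2.symm
      have hsZ : Z.charpoly.Separable := by
        rw [hc, hZY] at hs
        exact hs.of_mul_left
      have hdv := sep_dvd Z hsZ q hqZ
      have hqe : Z.charpoly = q := by
        refine (Polynomial.eq_of_monic_of_dvd_of_natDegree_le
          (Matrix.charpoly_monic _) hq.1 hdv ?_).symm
        rw [hq.2.1, Matrix.charpoly_natDegree_eq_dim, Fintype.card_fin]
      refine ⟨⟨Y, hPhi, ric_ne _ _ hcop⟩, ?_⟩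
      apply Subtype.ext
      change (Zof Y).charpoly = q
      rw [hZY, hqe]
  rw [← (Equiv.ofBijective f hf).tsum_eq]
  refine tsum_congr (fun Y => ?_)
  have h1 := hchi Y.1 Y.2.1
  have h2 : A.charpoly /ₘ (Zof Y.1).charpoly = (Aof Y.1).charpoly := by
    rw [h1, Polynomial.mul_divByMonic_cancel_left _ (Matrix.charpoly_monic _)]
  change _ = G (Zof Y.1).charpoly (A.charpoly /ₘ (Zof Y.1).charpoly)
  rw [h2]

end Pool.Agent.H32.TO
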