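import Mathlib
import Pool.Agent.H84.TO.TargetsH

/-!
# MP_b4e73a_pr, module HAR: Haar measure and Lebesgue measure
-/

open MeasureTheory Matrix Polynomial Filter Topology
open scoped ENNReal

namespace Pool.Agent.H32.TO

open Pool.Agent.H84.TO

section tools

variable {m n p : Type} [Fintype m] [Fintype n] [Fintype p] [DecidableEq m] [DecidableEq n]

theorem meas_inv : Measurable (fun A : Matrix m m ℝ => A⁻¹) := by
  have h1 : (fun A : Matrix m m ℝ => A⁻¹) = fun A => (A.det)⁻¹ • A.adjugate := by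
    funext A
    rw [Matrix.inv_def, Ring.inverse_eq_inv']
  rw [h1]
  have h2 : Measurable (fun A : Matrix m m ℝ => A.det) :=
    (Continuous.matrix_det continuous_id).measurable
  have h3 : Measurable (fun A : Matrix m m ℝ => A.adjugate) :=
    (Continuous.matrix_adjugate continuous_id).measurable
  exact h2.inv.smul h3

theorem meas_mul {α : Type*} [MeasurableSpace α] {f : α → Matrix m n ℝ} {g : α → Matrix n p ℝ}
    (hf : Measurable f) (hg : Measurable g) : Measurable (fun x => f x * g x) := by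
  have h1 : Continuous (fun q : Matrix m n ℝ × Matrix n p ℝ => q.1 * q.2) :=
    Continuous.matrix_mul continuous_fst continuous_snd
  exact h1.measurable.comp (hf.prodMk hg)

theorem meas_transpose {α : Type*} [MeasurableSpace α] {f : α → Matrix m n ℝ}
    (hf : Measurable f) : Measurable (fun x => (f x)ᵀ) := by
  have h1 : Continuous (fun q : Matrix m n ℝ => qᵀ) := Continuous.matrix_transpose continuous_id
  exact h1.measurable.comp hf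

theorem det_orth (g : Matrix.orthogonalGroup m ℝ) : |(g : Matrix m m ℝ).det| = 1 := by
  have h1 : (g : Matrix m m ℝ) * star (g : Matrix m m ℝ) = 1 :=
    (Matrix.mem_orthogonalGroup_iff m ℝ).1 g.2
  have h2 := congrArg Matrix.det h1
  rw [det_mul, Matrix.star_eq_conjTranspose, det_conjTranspose, star_trivial, det_one] at h2
  have h3 : |(g : Matrix m m ℝ).det| * |(g : Matrix m m ℝ).det| = 1 := by
    rw [abs_mul_abs_self, h2]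
  nlinarith [abs_nonneg (g : Matrix m m ℝ).det]

theorem orth_tr (g : Matrix.orthogonalGroup m ℝ) : (g : Matrix m m ℝ)ᵀ * (g : Matrix m m ℝ) = 1 := by
  have h1 : star (g : Matrix m m ℝ) * (g : Matrix m m ℝ) = 1 :=
    (Matrix.mem_orthogonalGroup_iff' m ℝ).1 g.2
  exact h1

end tools

theorem har (hBIN : T_BIN) (hEXT : T_EXT) (hFRK : T_FRK) (hSQ1 : T_SQ1) (hSQ2 : T_SQ2)
    (hBLKV : T_BLKV) : T_HAR := by
  intro ι κ _ _ _ _ μ _ _ F ψ hF hψ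
  have hright : μ.IsMulRightInvariant := (hBIN (ι ⊕ κ) μ μ).2.1
  have mT : Measurable (fun Y : Matrix (ι ⊕ κ) ι ℝ => Yᵀ * Y) :=
    meas_mul (meas_transpose measurable_id) measurable_id
  have mV : Measurable (fun Y : Matrix (ι ⊕ κ) ι ℝ => Y * (rt (Yᵀ * Y))⁻¹) :=
    meas_mul measurable_id (meas_inv.comp ((hSQ2 ι).1.comp mT))
  set A : Matrix (ι ⊕ κ) ι ℝ → ℝ≥0∞ := fun Y => F (Y * (rt (Yᵀ * Y))⁻¹) * ψ (Yᵀ * Y) with hA
  have mA : Measurable A := (hF.comp mV).mul (hψ.comp mT)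
  set c : ℝ≥0∞ := ∫⁻ O, F ((O : Matrix (ι ⊕ κ) (ι ⊕ κ) ℝ) *
          fromRows (1 : Matrix ι ι ℝ) (0 : Matrix κ ι ℝ)) ∂μ with hc
  -- invariance under the orthogonal group
  have h1 : ∀ g : Matrix.orthogonalGroup (ι ⊕ κ) ℝ, ∫⁻ Y : Matrix (ι ⊕ κ) ι ℝ, A Y
      = ∫⁻ Y : Matrix (ι ⊕ κ) ι ℝ, F ((g : Matrix (ι ⊕ κ) (ι ⊕ κ) ℝ) * (Y * (rt (Yᵀ * Y))⁻¹)) *
        ψ (Yᵀ * Y) := by
    intro g
    have h2 := (hBLKV (ι ⊕ κ) ι (g : Matrix (ι ⊕ κ) (ι ⊕ κ) ℝ) 1).2.2.1 (det_orth g)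
    rw [← h2.lintegral_comp mA]
    refine lintegral_congr (fun Y => ?_)
    have h3 : ((g : Matrix (ι ⊕ κ) (ι ⊕ κ) ℝ) * Y)ᵀ * ((g : Matrix (ι ⊕ κ) (ι ⊕ κ) ℝ) * Y)
        = Yᵀ * Y := by
      rw [transpose_mul, Matrix.mul_assoc, ← Matrix.mul_assoc _ _ Y, orth_tr, Matrix.one_mul]
    simp only [hA, h3, Matrix.mul_assoc]
  have h4 : ∫⁻ Y : Matrix (ι ⊕ κ) ι ℝ, A Y
      = ∫⁻ g, (∫⁻ Y : Matrix (ι ⊕ κ) ι ℝ, F ((g : Matrix (ι ⊕ κ) (ι ⊕ κ) ℝ) *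
        (Y * (rt (Yᵀ * Y))⁻¹)) * ψ (Yᵀ * Y)) ∂μ := by
    calc ∫⁻ Y : Matrix (ι ⊕ κ) ι ℝ, A Y
        = ∫⁻ _g, (∫⁻ Y : Matrix (ι ⊕ κ) ι ℝ, A Y) ∂μ := by
          rw [lintegral_const, measure_univ, mul_one]
      _ = _ := lintegral_congr (fun g => h1 g)
  have h5 : ∫⁻ g, (∫⁻ Y : Matrix (ι ⊕ κ) ι ℝ, F ((g : Matrix (ι ⊕ κ) (ι ⊕ κ) ℝ) *
        (Y * (rt (Yᵀ * Y))⁻¹)) * ψ (Yᵀ * Y)) ∂μ
      = ∫⁻ Y : Matrix (ι ⊕ κ) ι ℝ, (∫⁻ g, F ((g : Matrix (ι ⊕ κ) (ι ⊕ κ) ℝ) *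
        (Y * (rt (Yᵀ * Y))⁻¹)) * ψ (Yᵀ * Y) ∂μ) := by
    refine lintegral_lintegral_swap ?_
    refine Measurable.aemeasurable ?_
    exact (hF.comp (meas_mul (measurable_subtype_coe.comp measurable_fst)
      (mV.comp measurable_snd))).mul ((hψ.comp mT).comp measurable_snd)
  rw [h4, h5]
  have h6 : ∀ᵐ Y : Matrix (ι ⊕ κ) ι ℝ, ∫⁻ g, F ((g : Matrix (ι ⊕ κ) (ι ⊕ κ) ℝ) *
        (Y * (rt (Yᵀ * Y))⁻¹)) * ψ (Yᵀ * Y) ∂μ = c * ψ (Yᵀ * Y) := by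
    filter_upwards [hFRK ι κ] with Y hY
    obtain ⟨r1, r2, _⟩ := hSQ1 ι _ hY.2
    have hRs : (rt (Yᵀ * Y))ᵀ = rt (Yᵀ * Y) := r1.1
    have hdet : IsUnit (rt (Yᵀ * Y)).det := (Matrix.isUnit_iff_isUnit_det _).1 r1.isUnit
    have hV : (Y * (rt (Yᵀ * Y))⁻¹)ᵀ * (Y * (rt (Yᵀ * Y))⁻¹) = 1 := by
      rw [transpose_mul, transpose_nonsing_inv, hRs]
      have e1 : (rt (Yᵀ * Y))⁻¹ * Yᵀ * (Y * (rt (Yᵀ * Y))⁻¹)
          = (rt (Yᵀ * Y))⁻¹ * (Yᵀ * Y) * (rt (Yᵀ * Y))⁻¹ := by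
        simp only [Matrix.mul_assoc]
      rw [e1]
      nth_rewrite 2 [← r2]
      rw [← Matrix.mul_assoc, Matrix.nonsing_inv_mul _ hdet, Matrix.one_mul,
        Matrix.mul_nonsing_inv _ hdet]
    obtain ⟨h, hh⟩ := hEXT ι κ _ hV
    have mg : Measurable (fun g : Matrix.orthogonalGroup (ι ⊕ κ) ℝ =>
        F ((g : Matrix (ι ⊕ κ) (ι ⊕ κ) ℝ) * (Y * (rt (Yᵀ * Y))⁻¹))) :=
      hF.comp (meas_mul measurable_subtype_coe measurable_const)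
    rw [lintegral_mul_const _ mg]
    congr 1
    have e2 := lintegral_mul_right_eq_self (μ := μ) (fun O : Matrix.orthogonalGroup (ι ⊕ κ) ℝ =>
      F ((O : Matrix (ι ⊕ κ) (ι ⊕ κ) ℝ) * fromRows (1 : Matrix ι ι ℝ) (0 : Matrix κ ι ℝ))) h
    rw [← hh, hc, ← e2]
    refine lintegral_congr (fun g => ?_)
    rw [← Matrix.mul_assoc]
    rfl
  have mψ : Measurable (fun Y : Matrix (ι ⊕ κ) ι ℝ => ψ (Yᵀ * Y)) := hψ.comp mT
  rw [lintegral_congr_ae h6, lintegral_const_mul _ mψ]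

end Pool.Agent.H32.TO
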