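import Mathlib
import Pool.Agent.H84.TO.TargetsH
import Pool.Agent.H32.TO.HAR

/-!
# MP_b4e73a_pr, module KN: Haar measure in Stein coordinates
-/

open MeasureTheory Matrix Polynomial Filter Topology
open scoped ENNReal

namespace Pool.Agent.H32.TO

open Pool.Agent.H84.TO

namespace KN

variable {ι κ : Type} [Fintype ι] [DecidableEq ι] [Fintype κ] [DecidableEq κ]

theorem cont_top : Continuous (fun Y : Matrix (ι ⊕ κ) ι ℝ => top Y) :=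
  continuous_matrix (fun i j => continuous_id.matrix_elem (Sum.inl i) j)

theorem cont_bot : Continuous (fun Y : Matrix (ι ⊕ κ) ι ℝ => bot Y) :=
  continuous_matrix (fun i j => continuous_id.matrix_elem (Sum.inr i) j)

theorem top_fr (A : Matrix ι ι ℝ) (C : Matrix κ ι ℝ) : top (fromRows A C) = A :=
  Matrix.toRows₁_fromRows A C

theorem bot_fr (A : Matrix ι ι ℝ) (C : Matrix κ ι ℝ) : bot (fromRows A C) = C :=
  Matrix.toRows₂_fromRows A C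

theorem fr_top_bot (Y : Matrix (ι ⊕ κ) ι ℝ) : fromRows (top Y) (bot Y) = Y :=
  Matrix.fromRows_toRows Y

theorem gram (Y : Matrix (ι ⊕ κ) ι ℝ) : Yᵀ * Y = (top Y)ᵀ * top Y + (bot Y)ᵀ * bot Y := by
  conv_lhs => rw [← fr_top_bot Y, transpose_fromRows, fromCols_mul_fromRows]

theorem sylv_apply (Z A Q : Matrix ι ι ℝ) : sylv Z A Q = Q - Zᵀ * Q * A := rfl

/-- similarity -/
theorem inj_conj {g M : Matrix ι ι ℝ} (hg : IsUnit g.det) (h : Function.Injective (sylv M M)) :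
    Function.Injective (sylv (g⁻¹ * M * g) (g⁻¹ * M * g)) := by
  rw [injective_iff_map_eq_zero] at h ⊢
  intro Q hQ
  rw [sylv_apply] at hQ
  have hgi : IsUnit g⁻¹ := (Matrix.isUnit_iff_isUnit_det _).2 (by
    rw [det_nonsing_inv, isUnit_ringInverse]; exact hg)
  have hgt : IsUnit (gᵀ).det := by rw [det_transpose]; exact hg
  -- Q' = g^{-T} Q g^{-1}
  have h1 : sylv M M ((g⁻¹)ᵀ * Q * g⁻¹) = 0 := by
    rw [sylv_apply]
    have h2 : Q = (g⁻¹ * M * g)ᵀ * Q * (g⁻¹ * M * g) := sub_eq_zero.1 hQ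
    have h3 : (g⁻¹)ᵀ * ((g⁻¹ * M * g)ᵀ * Q * (g⁻¹ * M * g)) * g⁻¹
        = Mᵀ * ((g⁻¹)ᵀ * Q * g⁻¹) * M := by
      have e1 : (g⁻¹)ᵀ * (g⁻¹ * M * g)ᵀ = Mᵀ * (g⁻¹)ᵀ := by
        rw [← transpose_mul, Matrix.mul_assoc, Matrix.mul_assoc, Matrix.mul_nonsing_inv _ hg,
          Matrix.mul_one, transpose_mul]
      have e2 : (g⁻¹ * M * g) * g⁻¹ = g⁻¹ * M := by
        rw [Matrix.mul_assoc, Matrix.mul_nonsing_inv _ hg, Matrix.mul_one]
      calc (g⁻¹)ᵀ * ((g⁻¹ * M * g)ᵀ * Q * (g⁻¹ * M * g)) * g⁻¹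
          = ((g⁻¹)ᵀ * (g⁻¹ * M * g)ᵀ) * Q * ((g⁻¹ * M * g) * g⁻¹) := by
            simp only [Matrix.mul_assoc]
        _ = (Mᵀ * (g⁻¹)ᵀ) * Q * (g⁻¹ * M) := by rw [e1, e2]
        _ = Mᵀ * ((g⁻¹)ᵀ * Q * g⁻¹) * M := by simp only [Matrix.mul_assoc]
    rw [← h3, ← h2, sub_self]
  have h4 := h _ h1
  have h5 : gᵀ * ((g⁻¹)ᵀ * Q * g⁻¹) * g = Q := by
    have e1 : gᵀ * (g⁻¹)ᵀ = 1 := by
      rw [← transpose_mul, Matrix.nonsing_inv_mul _ hg, transpose_one]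
    calc gᵀ * ((g⁻¹)ᵀ * Q * g⁻¹) * g = (gᵀ * (g⁻¹)ᵀ) * Q * (g⁻¹ * g) := by
          simp only [Matrix.mul_assoc]
      _ = Q := by rw [e1, Matrix.nonsing_inv_mul _ hg, Matrix.one_mul, Matrix.mul_one]
  rw [← h5, h4]
  simp

theorem detS_ne {A : Matrix ι ι ℝ} (h : Function.Injective (sylv A A)) : detS A ≠ 0 := by
  unfold detS
  have h1 : Function.Injective ((sylv A A).restrict (sylv_mem A)) := by
    intro x y hxy
    have h2 := congrArg Subtype.val hxy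
    exact Subtype.ext (h h2)
  have h3 : LinearMap.ker ((sylv A A).restrict (sylv_mem A)) = ⊥ := LinearMap.ker_eq_bot.2 h1
  intro h0
  have h4 := LinearMap.bot_lt_ker_of_det_eq_zero h0
  rw [h3] at h4
  exact lt_irrefl _ h4

/-- the solution of the Stein equation -/
theorem solP_eq {Y : Matrix (ι ⊕ κ) ι ℝ} {P : Matrix ι ι ℝ}
    (h : Function.Injective (sylv (top Y) (top Y)))
    (hP : sylv (top Y) (top Y) P = (bot Y)ᵀ * bot Y) : solP Y = P := by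
  unfold solP
  rw [if_pos h, ← hP]
  exact Function.leftInverse_invFun h P

theorem solP_spec {Y : Matrix (ι ⊕ κ) ι ℝ} (h : Function.Injective (sylv (top Y) (top Y))) :
    sylv (top Y) (top Y) (solP Y) = (bot Y)ᵀ * bot Y := by
  have hs : Function.Surjective (sylv (top Y) (top Y)) := LinearMap.surjective_of_injective h
  unfold solP
  rw [if_pos h]
  exact Function.invFun_eq (hs _)

/-- the map -/
noncomputable def Th (Y : Matrix (ι ⊕ κ) ι ℝ) : Matrix (ι ⊕ κ) ι ℝ :=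
  fromRows ((rt (Yᵀ * Y))⁻¹ * top Y) (bot Y)

def Om : Set (Matrix (ι ⊕ κ) ι ℝ) :=
  {Y | (Yᵀ * Y).det ≠ 0 ∧ (top Y).det ≠ 0 ∧
    Function.Injective (sylv ((rt (Yᵀ * Y))⁻¹ * top Y) ((rt (Yᵀ * Y))⁻¹ * top Y))}

theorem pd_iff (Y : Matrix (ι ⊕ κ) ι ℝ) : (Yᵀ * Y).PosDef ↔ (Yᵀ * Y).det ≠ 0 := by
  have h1 : (Yᵀ * Y).PosSemidef := by
    have := Matrix.posSemidef_conjTranspose_mul_self Y
    rwa [conjTranspose_eq_transpose_of_trivial] at this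
  rw [h1.posDef_iff_isUnit, Matrix.isUnit_iff_isUnit_det, isUnit_iff_ne_zero]

theorem R_facts (hSQ1 : T_SQ1) {P : Matrix ι ι ℝ} (hP : P.PosDef) :
    (rt P)ᵀ = rt P ∧ rt P * rt P = P ∧ IsUnit (rt P).det := by
  obtain ⟨r1, r2, _⟩ := hSQ1 ι P hP
  exact ⟨r1.1, r2, (Matrix.isUnit_iff_isUnit_det _).1 r1.isUnit⟩

theorem stein (hSQ1 : T_SQ1) {Y : Matrix (ι ⊕ κ) ι ℝ} (hP : (Yᵀ * Y).PosDef) :
    sylv ((rt (Yᵀ * Y))⁻¹ * top Y) ((rt (Yᵀ * Y))⁻¹ * top Y) (Yᵀ * Y) = (bot Y)ᵀ * bot Y := by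
  obtain ⟨r1, r2, r3⟩ := R_facts hSQ1 hP
  rw [sylv_apply]
  have h1 : ((rt (Yᵀ * Y))⁻¹ * top Y)ᵀ * (Yᵀ * Y) * ((rt (Yᵀ * Y))⁻¹ * top Y)
      = (top Y)ᵀ * top Y := by
    rw [transpose_mul, transpose_nonsing_inv, r1]
    have e1 : (top Y)ᵀ * (rt (Yᵀ * Y))⁻¹ * (Yᵀ * Y) * ((rt (Yᵀ * Y))⁻¹ * top Y)
        = (top Y)ᵀ * ((rt (Yᵀ * Y))⁻¹ * (Yᵀ * Y) * (rt (Yᵀ * Y))⁻¹) * top Y := by
      simp only [Matrix.mul_assoc]
    have e2 : (rt (Yᵀ * Y))⁻¹ * (Yᵀ * Y) * (rt (Yᵀ * Y))⁻¹ = 1 := by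
      nth_rewrite 2 [← r2]
      rw [← Matrix.mul_assoc, Matrix.nonsing_inv_mul _ r3, Matrix.one_mul,
        Matrix.mul_nonsing_inv _ r3]
    rw [e1, e2, Matrix.mul_one]
  rw [h1]
  nth_rewrite 1 [gram Y]
  rw [add_sub_cancel_left]

theorem solP_Th (hSQ1 : T_SQ1) {Y : Matrix (ι ⊕ κ) ι ℝ} (hY : Y ∈ Om) :
    solP (Th Y) = Yᵀ * Y := by
  have hP := (pd_iff Y).2 hY.1
  apply solP_eq
  · unfold Th
    rw [top_fr]
    exact hY.2.2
  · unfold Th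
    rw [top_fr, bot_fr]
    exact stein hSQ1 hP

theorem Th_inj (hSQ1 : T_SQ1) : Set.InjOn (Th : Matrix (ι ⊕ κ) ι ℝ → _) Om := by
  intro Y hY Y' hY' h
  have h1 : Yᵀ * Y = Y'ᵀ * Y' := by
    rw [← solP_Th hSQ1 hY, ← solP_Th hSQ1 hY', h]
  obtain ⟨_, _, r3⟩ := R_facts hSQ1 ((pd_iff Y).2 hY.1)
  have ht := congrArg top h
  have hb := congrArg bot h
  unfold Th at ht hb
  rw [top_fr, top_fr, ← h1] at ht
  rw [bot_fr, bot_fr] at hb
  have h2 : top Y = top Y' := by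
    have h3 := congrArg (fun M => rt (Yᵀ * Y) * M) ht
    simp only [← Matrix.mul_assoc, Matrix.mul_nonsing_inv _ r3, Matrix.one_mul] at h3
    exact h3
  rw [← fr_top_bot Y, ← fr_top_bot Y', h2, hb]

theorem Th_image (hSQ1 : T_SQ1) : (Th '' Om : Set (Matrix (ι ⊕ κ) ι ℝ))
    = {Y | good Y ∧ (top Y).det ≠ 0} := by
  ext Y0
  constructor
  · rintro ⟨Y, hY, rfl⟩
    have hP := (pd_iff Y).2 hY.1
    obtain ⟨_, _, r3⟩ := R_facts hSQ1 hP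
    refine ⟨⟨?_, ?_⟩, ?_⟩
    · unfold Th
      rw [top_fr]
      exact hY.2.2
    · rw [solP_Th hSQ1 hY]
      exact hP
    · unfold Th
      rw [top_fr, det_mul]
      refine mul_ne_zero ?_ hY.2.1
      rw [det_nonsing_inv, Ring.inverse_eq_inv']
      exact inv_ne_zero r3.ne_zero
  · rintro ⟨⟨h1, h2⟩, h3⟩
    obtain ⟨r1, r2, r3⟩ := R_facts hSQ1 h2
    set P := solP Y0 with hPd
    have hst := solP_spec h1
    rw [sylv_apply, ← hPd] at hst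
    set Y : Matrix (ι ⊕ κ) ι ℝ := fromRows (rt P * top Y0) (bot Y0) with hYd
    have ht : top Y = rt P * top Y0 := top_fr _ _
    have hb : bot Y = bot Y0 := bot_fr _ _
    have hg : Yᵀ * Y = P := by
      rw [gram, ht, hb, transpose_mul, r1, ← hst]
      have e1 : (top Y0)ᵀ * rt P * (rt P * top Y0) = (top Y0)ᵀ * P * top Y0 := by
        nth_rewrite 3 [← r2]
        simp only [Matrix.mul_assoc]
      rw [e1, add_sub_cancel]
    have hA : (rt (Yᵀ * Y))⁻¹ * top Y = top Y0 := by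
      rw [hg, ht, ← Matrix.mul_assoc, Matrix.nonsing_inv_mul _ r3, Matrix.one_mul]
    refine ⟨Y, ⟨?_, ?_, ?_⟩, ?_⟩
    · rw [← pd_iff, hg]
      exact h2
    · rw [ht, det_mul]
      exact mul_ne_zero r3.ne_zero h3
    · rw [hA]
      exact h1
    · unfold Th
      rw [hA, hb]
      exact fr_top_bot Y0

theorem meas_A (hSQ2 : T_SQ2) : Measurable (fun Y : Matrix (ι ⊕ κ) ι ℝ =>
    (rt (Yᵀ * Y))⁻¹ * top Y) := by
  have mT : Measurable (fun Y : Matrix (ι ⊕ κ) ι ℝ => Yᵀ * Y) :=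
    meas_mul (meas_transpose measurable_id) measurable_id
  exact meas_mul (meas_inv.comp ((hSQ2 ι).1.comp mT)) cont_top.measurable

theorem meas_Om (hSQ2 : T_SQ2) (hMSP : T_MSP) : MeasurableSet (Om : Set (Matrix (ι ⊕ κ) ι ℝ)) := by
  have h1 : MeasurableSet {Y : Matrix (ι ⊕ κ) ι ℝ | (Yᵀ * Y).det ≠ 0} := by
    have c1 : Continuous (fun Y : Matrix (ι ⊕ κ) ι ℝ => (Yᵀ * Y).det) :=
      ((Continuous.matrix_transpose continuous_id).matrix_mul continuous_id).matrix_det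
    exact (isOpen_ne_fun c1 continuous_const).measurableSet
  have h2 : MeasurableSet {Y : Matrix (ι ⊕ κ) ι ℝ | (top Y).det ≠ 0} :=
    (isOpen_ne_fun cont_top.matrix_det continuous_const).measurableSet
  have h3 : MeasurableSet {Y : Matrix (ι ⊕ κ) ι ℝ |
      Function.Injective (sylv ((rt (Yᵀ * Y))⁻¹ * top Y) ((rt (Yᵀ * Y))⁻¹ * top Y))} :=
    (meas_A hSQ2) ((hMSP ι κ).1)
  exact h1.inter (h2.inter h3)

theorem top_J (O : Matrix.orthogonalGroup (ι ⊕ κ) ℝ) :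
    top ((O : Matrix (ι ⊕ κ) (ι ⊕ κ) ℝ) * fromRows (1 : Matrix ι ι ℝ) (0 : Matrix κ ι ℝ))
      = blk O := by
  ext i j
  unfold blk
  simp only [toRows₁_apply, toBlocks₁₁, Matrix.mul_apply, Fintype.sum_sum_type, fromRows_apply_inl,
    fromRows_apply_inr, Matrix.zero_apply, mul_zero, Finset.sum_const_zero, add_zero, of_apply]
  rw [Finset.sum_eq_single j]
  · simp
  · intro k _ hk
    rw [Matrix.one_apply_ne hk, mul_zero]
  · intro h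
    exact absurd (Finset.mem_univ j) h

theorem top_mul (Y : Matrix (ι ⊕ κ) ι ℝ) (M : Matrix ι ι ℝ) : top (Y * M) = top Y * M := by
  ext i j
  simp [Matrix.mul_apply, toRows₁_apply]

theorem Om_ae (hHAR : T_HAR) (hFRK : T_FRK) (hSQ1 : T_SQ1) (hSQ2 : T_SQ2) (hMSP : T_MSP)
    (hSTN : T_STN) [Nonempty κ] (μ : Measure (Matrix.orthogonalGroup (ι ⊕ κ) ℝ))
    [IsProbabilityMeasure μ] [μ.IsMulLeftInvariant] :
    ∀ᵐ Y : Matrix (ι ⊕ κ) ι ℝ, Y ∈ Om := by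
  have mB : MeasurableSet {V : Matrix (ι ⊕ κ) ι ℝ | ¬ Function.Injective (sylv (top V) (top V))} :=
    (cont_top.measurable ((hMSP ι κ).1)).compl
  have h1 := hHAR ι κ μ (Set.indicator {V | ¬ Function.Injective (sylv (top V) (top V))} 1)
    (fun _ => 1) (measurable_one.indicator mB) measurable_const
  have h2 : ∫⁻ O, Set.indicator {V | ¬ Function.Injective (sylv (top V) (top V))} 1
      ((O : Matrix (ι ⊕ κ) (ι ⊕ κ) ℝ) * fromRows (1 : Matrix ι ι ℝ) (0 : Matrix κ ι ℝ)) ∂μ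
      = (0 : ℝ≥0∞) := by
    rw [lintegral_congr_ae (g := fun _ => (0 : ℝ≥0∞))]
    · simp
    · filter_upwards [hSTN ι κ μ] with O hO
      refine Set.indicator_of_notMem ?_ _
      rw [Set.mem_ofPred_eq, not_not, top_J]
      exact hO
  rw [h2, zero_mul] at h1
  simp only [mul_one] at h1
  have mT : Measurable (fun Y : Matrix (ι ⊕ κ) ι ℝ => Yᵀ * Y) :=
    meas_mul (meas_transpose measurable_id) measurable_id
  have mV : Measurable (fun Y : Matrix (ι ⊕ κ) ι ℝ => Y * (rt (Yᵀ * Y))⁻¹) :=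
    meas_mul measurable_id (meas_inv.comp ((hSQ2 ι).1.comp mT))
  have m3 : Measurable (fun Y : Matrix (ι ⊕ κ) ι ℝ =>
      Set.indicator {V : Matrix (ι ⊕ κ) ι ℝ | ¬ Function.Injective (sylv (top V) (top V))}
        (1 : Matrix (ι ⊕ κ) ι ℝ → ℝ≥0∞) (Y * (rt (Yᵀ * Y))⁻¹)) :=
    (measurable_one.indicator mB).comp mV
  rw [lintegral_eq_zero_iff m3] at h1
  filter_upwards [h1, hFRK ι κ] with Y hY hY2
  have hP := hY2.2
  obtain ⟨r1, r2, r3⟩ := R_facts hSQ1 hP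
  refine ⟨(pd_iff Y).1 hP, hY2.1, ?_⟩
  have h4 : Function.Injective (sylv (top (Y * (rt (Yᵀ * Y))⁻¹)) (top (Y * (rt (Yᵀ * Y))⁻¹))) := by
    by_contra hn
    have h5 : Set.indicator {V : Matrix (ι ⊕ κ) ι ℝ | ¬ Function.Injective (sylv (top V) (top V))}
        (1 : Matrix (ι ⊕ κ) ι ℝ → ℝ≥0∞) (Y * (rt (Yᵀ * Y))⁻¹) = 1 :=
      Set.indicator_of_mem (show Y * (rt (Yᵀ * Y))⁻¹ ∈ {V : Matrix (ι ⊕ κ) ι ℝ |
        ¬ Function.Injective (sylv (top V) (top V))} from hn) _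
    rw [h5] at hY
    exact one_ne_zero hY
  rw [top_mul] at h4
  have h6 := inj_conj r3 h4
  have h7 : (rt (Yᵀ * Y))⁻¹ * (top Y * (rt (Yᵀ * Y))⁻¹) * rt (Yᵀ * Y)
      = (rt (Yᵀ * Y))⁻¹ * top Y := by
    rw [Matrix.mul_assoc, Matrix.mul_assoc, Matrix.nonsing_inv_mul _ r3, Matrix.mul_one]
  rw [h7] at h6
  exact h6

/-- change of variables, with the derivative given in the matrix topology -/
theorem cov {s : Set (Matrix (ι ⊕ κ) ι ℝ)} (hs : MeasurableSet s)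
    (f : Matrix (ι ⊕ κ) ι ℝ → Matrix (ι ⊕ κ) ι ℝ)
    (D : Matrix (ι ⊕ κ) ι ℝ → Matrix (ι ⊕ κ) ι ℝ →L[ℝ] Matrix (ι ⊕ κ) ι ℝ)
    (hf : ∀ Y ∈ s, HasFDerivWithinAt f (D Y) s Y) (hi : Set.InjOn f s)
    (g : Matrix (ι ⊕ κ) ι ℝ → ℝ≥0∞) :
    ∫⁻ x in f '' s, g x = ∫⁻ x in s, ENNReal.ofReal |(D x).det| * g (f x) :=
  @MeasureTheory.lintegral_image_eq_lintegral_abs_det_fderiv_mul (Matrix (ι ⊕ κ) ι ℝ)
    instNormMat instNSMat inferInstance s f D instMeasMat instBorelMat volume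
    instHaarMat hs hf hi g

end KN

open KN in
theorem kn (hHAR : T_HAR) (hFRK : T_FRK) (hSQ1 : T_SQ1) (hSQ2 : T_SQ2) (hMSP : T_MSP)
    (hSTN : T_STN) (hJAC : T_JAC) : T_KN := by
  intro ι κ _ _ _ _ _ μ _ _ φ ψ hφ hψ
  have hOm := Om_ae (ι := ι) (κ := κ) hHAR hFRK hSQ1 hSQ2 hMSP hSTN μ
  have mOm := meas_Om (ι := ι) (κ := κ) hSQ2 hMSP
  set h : Matrix (ι ⊕ κ) ι ℝ → ℝ≥0∞ := fun Y =>
    φ (top Y).charpoly * ψ (solP Y) * ENNReal.ofReal (den Y) with hh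
  -- the derivative
  have hD : ∀ Y : Matrix (ι ⊕ κ) ι ℝ, ∃ D : Matrix (ι ⊕ κ) ι ℝ →L[ℝ] Matrix (ι ⊕ κ) ι ℝ,
      Y ∈ Om → HasFDerivAt Th D Y ∧ |D.det| = (Yᵀ * Y).det ^ (-(Fintype.card ι : ℝ) / 2) *
        |detS ((rt (Yᵀ * Y))⁻¹ * top Y)| := by
    intro Y
    by_cases hY : Y ∈ Om
    · obtain ⟨D, d1, d2⟩ := hJAC ι κ Y ((pd_iff Y).2 hY.1) hY.2.1
      exact ⟨D, fun _ => ⟨d1, d2⟩⟩
    · exact ⟨0, fun h => absurd h hY⟩
  choose D hD using hD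
  have hcov := cov mOm Th D (fun Y hY => (hD Y hY).1.hasFDerivWithinAt) (Th_inj hSQ1) h
  -- left side
  have e1 : ∫⁻ Y in {Y : Matrix (ι ⊕ κ) ι ℝ | good Y}, h Y = ∫⁻ Y in Th '' Om, h Y := by
    rw [Th_image hSQ1]
    refine setLIntegral_congr ?_
    filter_upwards [hFRK ι κ] with Y hY
    apply propext
    constructor
    · intro h1
      exact ⟨h1, hY.1⟩
    · intro h1
      exact h1.1
  rw [e1, hcov]
  -- right side
  have mF : Measurable (fun V : Matrix (ι ⊕ κ) ι ℝ => φ (top V).charpoly) :=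
    hφ.comp cont_top.measurable
  have mψ : Measurable (fun P : Matrix ι ι ℝ => ψ P *
      ENNReal.ofReal (P.det ^ (-((Fintype.card ι : ℝ) + Fintype.card κ) / 2))) := by
    have m1 : Measurable (fun P : Matrix ι ι ℝ => P.det) :=
      (Continuous.matrix_det continuous_id).measurable
    exact hψ.mul (m1.pow_const _).ennreal_ofReal
  have key := hHAR ι κ μ _ _ mF mψ
  simp only [top_J] at key
  have e2 : ∫⁻ Y : Matrix (ι ⊕ κ) ι ℝ, ψ (Yᵀ * Y) * wt Y = ∫⁻ Y : Matrix (ι ⊕ κ) ι ℝ,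
      ψ (Yᵀ * Y) * ENNReal.ofReal ((Yᵀ * Y).det ^ (-((Fintype.card ι : ℝ) + Fintype.card κ) / 2)) :=
    rfl
  rw [e2, ← key]
  have e3 : (Om : Set (Matrix (ι ⊕ κ) ι ℝ)) =ᵐ[volume] Set.univ := by
    filter_upwards [hOm] with Y hY
    apply propext
    exact ⟨fun _ => trivial, fun _ => hY⟩
  have e3' : ∀ G : Matrix (ι ⊕ κ) ι ℝ → ℝ≥0∞, ∫⁻ Y, G Y = ∫⁻ Y in Om, G Y := by
    intro G
    rw [setLIntegral_congr e3, setLIntegral_univ]
  rw [e3']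
  refine setLIntegral_congr_fun mOm (fun Y hY => ?_)
  have hP := (pd_iff Y).2 hY.1
  obtain ⟨r1, r2, r3⟩ := R_facts hSQ1 hP
  have hdP : 0 < (Yᵀ * Y).det := hP.det_pos
  simp only [hh]
  rw [solP_Th hSQ1 hY, (hD Y hY).2]
  have e4 : top (Th Y) = (rt (Yᵀ * Y))⁻¹ * top Y := top_fr _ _
  have e5 : den (Th Y) = (Yᵀ * Y).det ^ (-(Fintype.card κ : ℝ) / 2) *
      |detS ((rt (Yᵀ * Y))⁻¹ * top Y)|⁻¹ := by
    unfold den
    rw [solP_Th hSQ1 hY, e4]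
  have e6 : (top (Y * (rt (Yᵀ * Y))⁻¹)).charpoly = ((rt (Yᵀ * Y))⁻¹ * top Y).charpoly := by
    rw [top_mul, Matrix.charpoly_mul_comm]
  rw [e4, e5, e6]
  have hdet : 0 < |detS ((rt (Yᵀ * Y))⁻¹ * top Y)| := abs_pos.2 (detS_ne hY.2.2)
  set dd := |detS ((rt (Yᵀ * Y))⁻¹ * top Y)| with hdd
  set p := (Yᵀ * Y).det with hp
  have e7 : ENNReal.ofReal (p ^ (-(Fintype.card ι : ℝ) / 2) * dd) *
      ENNReal.ofReal (p ^ (-(Fintype.card κ : ℝ) / 2) * dd⁻¹)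
      = ENNReal.ofReal (p ^ (-((Fintype.card ι : ℝ) + Fintype.card κ) / 2)) := by
    rw [← ENNReal.ofReal_mul (by positivity)]
    congr 1
    have e8 : p ^ (-((Fintype.card ι : ℝ) + Fintype.card κ) / 2)
        = p ^ (-(Fintype.card ι : ℝ) / 2) * p ^ (-(Fintype.card κ : ℝ) / 2) := by
      rw [← Real.rpow_add hdP]
      congr 1
      ring
    rw [e8]
    field_simp
  rw [← e7]
  ring

end Pool.Agent.H32.TO
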